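import Pool.Agent.H662.RC.Alm
import Pool.Agent.H662.RC.Conc

set_option autoImplicit false

/-!
# Almost prime values of quadratic polynomials in almost all residue classes, for all large moduli
-/

namespace Pool.Agent.Results.MP_7169d5_nt.AlmostPrimesInClasses

open Finset Filter

open Classical in
/-- The number of the integers `n` in `[1, X]` with `n ≡ t mod q` such that `a n ^ 2 + b n + c` has at most
`r` prime factors (counted with multiplicity), all of them at least `w`. -/
noncomputable def almostPrimes (a b c : ℤ) (r : ℕ) (w : ℝ) (X q t : ℕ) : ℕ :=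
  ((Finset.Icc 1 X).filter (fun n : ℕ => n ≡ t [MOD q] ∧
    (a * (n : ℤ) ^ 2 + b * (n : ℤ) + c).natAbs.primeFactorsList.length ≤ r ∧
      ∀ p : ℕ, p.Prime → p ∣ (a * (n : ℤ) ^ 2 + b * (n : ℤ) + c).natAbs → w ≤ p)).card

open Classical in
/-- The number of the residue classes `t mod q` such that `a t ^ 2 + b t + c` is prime to `q`. -/
noncomputable def admissible (a b c : ℤ) (q : ℕ) : ℕ :=
  ((Finset.range q).filter (fun t : ℕ =>
    IsCoprime (a * (t : ℤ) ^ 2 + b * (t : ℤ) + c) (q : ℤ))).card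

open Classical in
/-- **Almost prime values of quadratic polynomials in almost all residue classes.**  Let
`f(n) = a n ^ 2 + b n + c` with `a > 0`, `gcd(a, b, c) = 1`, `a + b` and `c` not both even and
`b ^ 2 - 4 a c` not a square, for instance `f(n) = n ^ 2 + 1`. Let `r = 5`, `θ < 1`, or `r = 4`,
`θ < 0.924`, or `r = 3`, `θ < 0.55`.  There are `δ, κ > 0` such that for all large `X` and for every
modulus `q ≤ X ^ θ`, all of the admissible residue classes modulo `q` with at most `ρ(q) X ^ (-κ)`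
exceptions contain at least `δ X / (ρ(q) log X)` integers `n ≤ X` such that `f(n)` has at most `r` prime
factors, all of them at least `X ^ (1/8)`; here `ρ(q)` is the number of the admissible classes. -/
theorem result (a b c : ℤ) (ha : 0 < a) (hg : Int.gcd (Int.gcd a b : ℤ) c = 1)
    (h2 : ¬ (Even (a + b) ∧ Even c)) (hD : ¬ IsSquare (b ^ 2 - 4 * a * c))
    (r : ℕ) (θ : ℝ) (hθ : 0 < θ)
    (hpar : (r = 5 ∧ θ < 1) ∨ (r = 4 ∧ θ < 231 / 250) ∨ (r = 3 ∧ θ < 11 / 20)) :
    ∃ δ κ : ℝ, 0 < δ ∧ 0 < κ ∧ ∀ᶠ X : ℕ in atTop, ∀ q : ℕ, 1 ≤ q → (q : ℝ) ≤ (X : ℝ) ^ θ →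
      (((Finset.range q).filter (fun t : ℕ =>
        IsCoprime (a * (t : ℤ) ^ 2 + b * (t : ℤ) + c) (q : ℤ) ∧
        (almostPrimes a b c r ((X : ℝ) ^ (1 / 8 : ℝ)) X q t : ℝ) <
          δ * X / (admissible a b c q * Real.log X))).card : ℝ) ≤
      admissible a b c q * (X : ℝ) ^ (-κ) := by
  obtain ⟨δ, κ, hδ, hκ, H⟩ := Pool.Agent.H662.RC.alm_main a b c ha
    (Pool.Agent.H662.RC.gcd_cond a b c hg) (Pool.Agent.H662.RC.even_cond a b c h2) hD r θ hθ hpar
  refine ⟨δ, κ, hδ, hκ, ?_⟩
  filter_upwards [H] with X hX q hq hqX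
  exact hX q hq hqX

end Pool.Agent.Results.MP_7169d5_nt.AlmostPrimesInClasses
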