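import Pool.Agent.H578.Sec.Uni2

set_option autoImplicit false

/-!
# Almost primes `a ^ 2 + 1` for which `a + i` has no proper factor in a prescribed region

If `a ^ 2 + 1` is a prime then `a + i` has no proper factor in `ℤ[i]`.  Every proper factor has exactly
one associate `u + i v` with `u > 0`, `-u < v ≤ u`; it has a slope `v / u ∈ [-1, 1]` and a norm
`u ^ 2 + v ^ 2`.  We prove: for every finite family of boxes (slope in `[α, β]`, norm in `[y, z]`), which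
may depend on `X`, of total area `∑ (β - α) (1 + log (z / y)) = σ log X`, all but a proportion `C σ` of
the intervals `(N, N + X ^ h]` with `N ≤ X` contain `≫ X ^ h / log X` integers `a` such that `a ^ 2 + 1`
has at most `m` prime factors, all of them at least `X ^ ζ`, and `a + i` has no proper factor in any of the
boxes.  The boxes may be as small as `β - α = X ^ (-ζ / 80)`, `z = 2 y`.  Here `m = 5` for every
`h > 0`, `m = 4` for `h > 19 / 250`, `m = 3` for `h > 9 / 20`, with `ζ` up to `(1 + h) / 5` respectively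
`(1 + h) / 8`, and for `m = 3` every `ζ < 1 / 2` is possible if `h > ζ + 1 / 2`.

For instance: no proper factor is close to one of the axes, `a ^ 2 + 1` has no divisor between
`X ^ (1 - c)` and `X ^ (1 + c)`, and no proper divisor in the windows `[2 ^ (M j), 2 ^ (M j + 1)]`.
-/

namespace Pool.Agent.Results.MP_7169d5_nt.FactorFreeBoxes

open Finset Filter
open scoped Classical

/-- `a + i = (u + i v) (r + i s)` in `ℤ[i]` with both factors non-units, where `u > 0`, `|v| ≤ u`, the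
slope `v / u` lies in `[α, β]` and the norm `u ^ 2 + v ^ 2` in `[A, B]`. -/
def HasFactor (a : ℕ) (α β A B : ℝ) : Prop :=
  ∃ u v r s : ℤ, u * r - v * s = a ∧ u * s + v * r = 1 ∧ 1 < u ^ 2 + v ^ 2 ∧ 1 < r ^ 2 + s ^ 2 ∧
    0 < u ∧ |v| ≤ u ∧ α * (u : ℝ) ≤ (v : ℝ) ∧ (v : ℝ) ≤ β * (u : ℝ) ∧
    A ≤ (u : ℝ) ^ 2 + (v : ℝ) ^ 2 ∧ (u : ℝ) ^ 2 + (v : ℝ) ^ 2 ≤ B

/-- `a ^ 2 + 1` has at most `m` prime factors (counted with multiplicity), all of them at least
`X ^ ζ`, and `a + i` has no proper factor in any of the `k` boxes: slope in `[α i, β i]`, norm in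
`[y i, z i]`. -/
def Good (m : ℕ) (ζ : ℝ) (k : ℕ) (α β y z : Fin k → ℝ) (X : ℕ) (a : ℕ) : Prop :=
  (a ^ 2 + 1).primeFactorsList.length ≤ m ∧
    (∀ p : ℕ, p.Prime → p ∣ a ^ 2 + 1 → (X : ℝ) ^ ζ ≤ p) ∧
    ∀ i, ¬ HasFactor a (α i) (β i) (y i) (z i)

/-- Let `0 < h ≤ 1`, `0 < ζ`, and `m = 5`, `ζ < (1 + h) / 5`, or `m = 4`, `h > 19 / 250`,
`ζ < (1 + h) / 8`, or `m = 3`, `h > 9 / 20`, `ζ < (1 + h) / 8`, or `m = 3`, `2 / 5 ≤ ζ < h - 1 / 2`.

There are `δ, c > 0` such that for every `ε > 0`, every large `X` and every finite family of boxes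
`[α i, β i] × [y i, z i]` with `-1 ≤ α i`, `β i ≤ 1`, `β i - α i ≥ X ^ (-ζ / 80)`, `0 < y i ≤ z i` and
`∑ (β i - α i) (1 + log (z i / y i)) ≤ c ε log X`, all `N ≤ X` but at most `ε X` are such that the
interval `(N, N + X ^ h]` contains at least `δ X ^ h / log X` good integers. -/
theorem result (m : ℕ) (h ζ : ℝ) (hh : 0 < h) (h1 : h ≤ 1) (hζ : 0 < ζ)
    (hpar : (m = 5 ∧ ζ < (1 + h) / 5) ∨ (m = 4 ∧ 19 / 250 < h ∧ ζ < (1 + h) / 8) ∨
      (m = 3 ∧ 9 / 20 < h ∧ ζ < (1 + h) / 8) ∨ (m = 3 ∧ 2 / 5 ≤ ζ ∧ ζ + 1 / 2 < h)) :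
    ∃ δ c : ℝ, 0 < δ ∧ 0 < c ∧ ∀ ε : ℝ, 0 < ε → ∀ᶠ X : ℕ in atTop,
      ∀ (k : ℕ) (α β y z : Fin k → ℝ),
        (∀ i, -1 ≤ α i ∧ β i ≤ 1 ∧ (X : ℝ) ^ (-(ζ / 80)) ≤ β i - α i ∧ 0 < y i ∧ y i ≤ z i) →
        ∑ i, (β i - α i) * (1 + Real.log (z i / y i)) ≤ c * ε * Real.log X →
          (((Icc 1 X).filter (fun N : ℕ =>
            (((Ioc N (N + ⌊(X : ℝ) ^ h⌋₊)).filter (Good m ζ k α β y z X)).card : ℝ) <
              δ * (X : ℝ) ^ h / Real.log X)).card : ℝ) ≤ ε * X :=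
  Pool.Agent.H578.Sec.shortU m h ζ hh h1 hζ hpar

end Pool.Agent.Results.MP_7169d5_nt.FactorFreeBoxes
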